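import Pool.Agent.TH416.WP.Gauss
import Pool.Agent.TH416.WP.Border
import Pool.Agent.TH817.J1249

set_option autoImplicit false

/-!
# Laplace transform of the multivariate gamma density (job 1251)
-/

open MeasureTheory ProbabilityTheory Matrix
open scoped ENNReal

namespace Pool.Agent.TH384.WP

open Pool.Agent.TH985.WP

open Pool.Agent.TH416.WP (gauss_quad border_posDef border_det schur_posDef)
open Pool.Agent.TH817.WP (border_lintegral)

/-! ### the cone is open -/

theorem symm_isHermitian {ι : Type} (x : Sym2 ι → ℝ) : (symm x).IsHermitian := by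
  ext i j
  simp [Pool.Agent.TH985.WP.symm, Matrix.conjTranspose_apply, Sym2.eq_swap]

theorem continuous_symm_apply {ι : Type} (i j : ι) :
    Continuous (fun x : Sym2 ι → ℝ => symm x i j) := by
  show Continuous (fun x : Sym2 ι → ℝ => x s(i, j))
  fun_prop

theorem mem_cone_iff {ι : Type} [Fintype ι] (x : Sym2 ι → ℝ) :
    x ∈ cone ι ↔ ∀ v ∈ Metric.sphere (0 : ι → ℝ) 1, 0 < v ⬝ᵥ (symm x) *ᵥ v := by
  constructor
  · intro h v hv
    have hv0 : v ≠ 0 := by
      rintro rfl
      simp at hv
    have := Matrix.PosDef.dotProduct_mulVec_pos (M := symm x) h hv0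
    simpa using this
  · intro h
    refine Matrix.PosDef.of_dotProduct_mulVec_pos (symm_isHermitian x) fun v hv => ?_
    have hn : 0 < ‖v‖ := norm_pos_iff.2 hv
    have h1 := h (‖v‖⁻¹ • v) (by
      rw [mem_sphere_zero_iff_norm, norm_smul, norm_inv, norm_norm, inv_mul_cancel₀ hn.ne'])
    rw [Matrix.mulVec_smul, smul_dotProduct, dotProduct_smul, smul_eq_mul, smul_eq_mul] at h1
    have h2 : 0 < ‖v‖⁻¹ := inv_pos.2 hn
    have h3 : 0 < v ⬝ᵥ (symm x) *ᵥ v := by
      by_contra hcon
      push Not at hcon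
      have : ‖v‖⁻¹ * (‖v‖⁻¹ * (v ⬝ᵥ (symm x) *ᵥ v)) ≤ 0 := by
        have := mul_nonneg h2.le h2.le
        nlinarith
      linarith
    simpa using h3

theorem isOpen_cone (ι : Type) [Fintype ι] : IsOpen (cone ι) := by
  rw [isOpen_iff_eventually]
  intro x hx
  rw [mem_cone_iff] at hx
  have hc : Continuous (fun z : (Sym2 ι → ℝ) × (ι → ℝ) => z.2 ⬝ᵥ (symm z.1) *ᵥ z.2) := by
    have e : (fun z : (Sym2 ι → ℝ) × (ι → ℝ) => z.2 ⬝ᵥ (symm z.1) *ᵥ z.2) =
        fun z : (Sym2 ι → ℝ) × (ι → ℝ) => ∑ i, z.2 i * ∑ j, z.1 s(i, j) * z.2 j := by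
      funext z
      simp [dotProduct, Matrix.mulVec, Pool.Agent.TH985.WP.symm]
    rw [e]
    fun_prop
  have := (isCompact_sphere (0 : ι → ℝ) 1).eventually_forall_of_forall_eventually
    (x₀ := x) (P := fun x v => 0 < v ⬝ᵥ (symm x) *ᵥ v)
    (fun v hv => hc.continuousAt.eventually_const_lt (hx v hv))
  filter_upwards [this] with y hy
  exact (mem_cone_iff y).2 hy

/-! ### transport -/

/-- the equivalence of unordered pairs -/
def s2e {α β : Type} (e : α ≃ β) : Sym2 α ≃ Sym2 β where
  toFun := Sym2.map e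
  invFun := Sym2.map e.symm
  left_inv := by intro x; rw [Sym2.map_map]; simp
  right_inv := by intro x; rw [Sym2.map_map]; simp

theorem mp_s2e {α β : Type} [Fintype α] [Fintype β] [DecidableEq α] [DecidableEq β] (e : α ≃ β) :
    MeasurePreserving (fun (x : Sym2 β → ℝ) (i : Sym2 α) => x (s2e e i)) volume volume := by
  have h := volume_measurePreserving_piCongrLeft (fun _ : Sym2 α => ℝ) (s2e e).symm
  have h2 : ⇑(MeasurableEquiv.piCongrLeft (fun _ : Sym2 α => ℝ) (s2e e).symm) =
      fun (x : Sym2 β → ℝ) (i : Sym2 α) => x (s2e e i) := by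
    funext x i
    have := MeasurableEquiv.piCongrLeft_apply_apply (β := fun _ : Sym2 α => ℝ) (s2e e).symm x
      (s2e e i)
    simpa using this
  rw [h2] at h
  exact h

theorem symm_s2e {α β : Type} (e : α ≃ β) (x : Sym2 β → ℝ) :
    symm (fun i => x (s2e e i)) = (symm x).submatrix e e := by
  ext i j
  simp [Pool.Agent.TH985.WP.symm, s2e]

/-- the statement -/
def GLst (ι : Type) [Fintype ι] [DecidableEq ι] : Prop :=
  ∀ β : ℝ, ((Fintype.card ι : ℝ) - 1) / 2 < β →
    ∃ c : ℝ, 0 < c ∧ ∀ L : Matrix ι ι ℝ, L.PosDef →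
      ∫⁻ x in cone ι, ENNReal.ofReal ((symm x).det ^ (β - ((Fintype.card ι : ℝ) + 1) / 2) *
        Real.exp (-(L * symm x).trace)) = ENNReal.ofReal (c * L.det ^ (-β))

theorem measurable_det {ι : Type} [Fintype ι] [DecidableEq ι] :
    Measurable (fun x : Sym2 ι → ℝ => (symm x).det) := by
  have : Continuous (fun x : Sym2 ι → ℝ => (symm x).det) := by
    apply Continuous.matrix_det
    exact continuous_matrix fun i j => continuous_symm_apply i j
  exact this.measurable

theorem measurable_tr {ι : Type} [Fintype ι] (L : Matrix ι ι ℝ) :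
    Measurable (fun x : Sym2 ι → ℝ => (L * symm x).trace) := by
  have : Continuous (fun x : Sym2 ι → ℝ => (L * symm x).trace) := by
    apply Continuous.matrix_trace
    apply Continuous.matrix_mul continuous_const
    exact continuous_matrix fun i j => continuous_symm_apply i j
  exact this.measurable

theorem measurable_dens {ι : Type} [Fintype ι] [DecidableEq ι] (L : Matrix ι ι ℝ) (γ : ℝ) :
    Measurable (fun x : Sym2 ι → ℝ => ENNReal.ofReal ((symm x).det ^ γ *
        Real.exp (-(L * symm x).trace))) := by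
  apply ENNReal.measurable_ofReal.comp
  exact (measurable_det.pow_const γ).mul (Real.measurable_exp.comp (measurable_tr L).neg)

theorem GL_transport {α β : Type} [Fintype α] [Fintype β] [DecidableEq α] [DecidableEq β]
    (e : α ≃ β) (h : GLst α) : GLst β := by
  intro b hb
  have hcard : Fintype.card α = Fintype.card β := Fintype.card_congr e
  rw [← hcard] at hb
  obtain ⟨c, hc, h1⟩ := h b hb
  refine ⟨c, hc, fun L hL => ?_⟩
  have hL' : (L.submatrix e e).PosDef := hL.submatrix e.injective
  have h2 := h1 _ hL'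
  rw [Matrix.det_submatrix_equiv_self] at h2
  rw [← h2]
  have hcone : (fun (x : Sym2 β → ℝ) (i : Sym2 α) => x (s2e e i)) ⁻¹' (cone α) = cone β := by
    ext x
    show (symm (fun i => x (s2e e i))).PosDef ↔ (symm x).PosDef
    rw [symm_s2e]
    constructor
    · intro h3
      have := h3.submatrix (e := e.symm) e.symm.injective
      simpa using this
    · intro h3
      exact h3.submatrix e.injective
  have h3 := (mp_s2e e).setLIntegral_comp_preimage (isOpen_cone α).measurableSet
    (measurable_dens (L.submatrix e e) (b - ((Fintype.card α : ℝ) + 1) / 2))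
  rw [← h3, hcone]
  apply lintegral_congr
  intro x
  rw [symm_s2e, Matrix.det_submatrix_equiv_self, Matrix.submatrix_mul_equiv, hcard]
  congr 4
  have : ((L * symm x).submatrix e e).trace = (L * symm x).trace := by
    rw [Matrix.trace, Matrix.trace]
    exact Equiv.sum_comp e (fun i => (L * symm x) i i)
  rw [this]

/-! ### the base case -/

theorem GL_empty {ι : Type} [Fintype ι] [DecidableEq ι] [IsEmpty ι] : GLst ι := by
  intro b _
  refine ⟨1, one_pos, fun L _ => ?_⟩
  have : IsEmpty (Sym2 ι) := by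
    constructor
    intro z
    induction z with
    | _ i j => exact IsEmpty.false i
  have hcone : cone ι = Set.univ := by
    ext x
    simp only [Set.mem_univ, iff_true]
    refine Matrix.PosDef.of_dotProduct_mulVec_pos (symm_isHermitian x) fun v hv => ?_
    exact absurd (Subsingleton.elim v 0) hv
  rw [hcone, Measure.restrict_univ]
  have h1 : ∀ x : Sym2 ι → ℝ, ENNReal.ofReal ((symm x).det ^ (b - ((Fintype.card ι : ℝ) + 1) / 2) *
        Real.exp (-(L * symm x).trace)) = 1 := by
    intro x
    rw [Matrix.det_isEmpty, Matrix.trace_eq_zero_of_isEmpty]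
    simp
  simp_rw [h1]
  rw [lintegral_const, Matrix.det_isEmpty]
  have : (volume : Measure (Sym2 ι → ℝ)) Set.univ = 1 := by
    rw [volume_pi, Measure.pi_of_empty (fun _ : Sym2 ι => (volume : Measure ℝ)) 0]
    simp
  rw [this]
  simp

/-! ### the one dimensional integral -/

theorem gamma_int {a r : ℝ} (ha : 0 < a) (hr : 0 < r) :
    ∫⁻ t in Set.Ioi (0 : ℝ), ENNReal.ofReal (t ^ (a - 1) * Real.exp (-(r * t))) =
      ENNReal.ofReal (r ^ (-a) * Real.Gamma a) := by
  have h1 := Real.integral_rpow_mul_exp_neg_mul_Ioi ha hr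
  have hint : IntegrableOn (fun t : ℝ => t ^ (a - 1) * Real.exp (-(r * t))) (Set.Ioi 0) := by
    have := integrableOn_rpow_mul_exp_neg_mul_rpow (p := 1) (s := a - 1) (b := r) (by linarith)
      one_pos hr
    refine this.congr_fun (fun t _ => ?_) measurableSet_Ioi
    simp
  rw [← ofReal_integral_eq_lintegral_ofReal hint, h1]
  · congr 2
    rw [one_div, Real.inv_rpow hr.le, Real.rpow_neg hr.le]
  · filter_upwards [ae_restrict_mem measurableSet_Ioi] with t ht
    have : (0 : ℝ) < t := ht
    positivity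

/-! ### the step -/

theorem trace_border {ι : Type} [Fintype ι] (L : Matrix (Option ι) (Option ι) ℝ)
    (hL : L.IsHermitian) (x : Sym2 ι → ℝ) (v : ι → ℝ) (y : ℝ) :
    (L * symm (border x v y)).trace =
      ((Matrix.of fun i j => L (some i) (some j) : Matrix ι ι ℝ) * symm x).trace +
        2 * ((fun i => L (some i) none) ⬝ᵥ v) + L none none * y := by
  have hs : ∀ i, L none (some i) = L (some i) none := by
    intro i
    have := hL.apply (some i) none
    simpa using this
  simp only [Matrix.trace, Matrix.diag_apply, Matrix.mul_apply, Fintype.sum_option, dotProduct,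
    Matrix.of_apply, hs]
  have e1 : symm (border x v y) none none = y := rfl
  have e2 : ∀ i, symm (border x v y) (some i) none = v i := fun _ => rfl
  have e3 : ∀ i, symm (border x v y) none (some i) = v i := fun _ => rfl
  have e4 : ∀ i j, symm (border x v y) (some i) (some j) = symm x i j := fun _ _ => rfl
  simp only [e1, e2, e3, e4, Finset.sum_add_distrib]
  ring

theorem trace_schur {ι : Type} [Fintype ι] (A : Matrix ι ι ℝ) (l : ι → ℝ) (c : ℝ)
    (x : Sym2 ι → ℝ) :
    ((Matrix.of fun i j => A i j - l i * l j / c : Matrix ι ι ℝ) * symm x).trace =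
      (A * symm x).trace - (l ⬝ᵥ (symm x) *ᵥ l) / c := by
  simp only [Matrix.trace, Matrix.diag_apply, Matrix.mul_apply, Matrix.of_apply, dotProduct,
    Matrix.mulVec, sub_mul, Finset.sum_sub_distrib, Finset.mul_sum, Finset.sum_div]
  congr 1
  apply Finset.sum_congr rfl
  intro i _
  apply Finset.sum_congr rfl
  intro j _
  have : symm x j i = symm x i j := by simp [Pool.Agent.TH985.WP.symm, Sym2.eq_swap]
  rw [this]
  ring

theorem GL_option {ι : Type} [Fintype ι] [DecidableEq ι] (h : GLst ι) : GLst (Option ι) := by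
  intro b hb
  rw [Fintype.card_option] at hb
  push_cast at hb
  set n : ℝ := (Fintype.card ι : ℝ) with hn
  have hb' : n / 2 < b := by linarith
  obtain ⟨c, hc, h1⟩ := h b (by linarith)
  have ha : 0 < b - n / 2 := by linarith
  refine ⟨Real.Gamma (b - n / 2) * Real.pi ^ (n / 2) * c, by
    have := Real.Gamma_pos_of_pos ha
    positivity, fun L hL => ?_⟩
  obtain ⟨hl0, hS, hdet⟩ := schur_posDef L hL
  set ℓ : ℝ := L none none with hℓ
  set S : Matrix ι ι ℝ := Matrix.of fun i j => L (some i) (some j) -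
    L (some i) none * L (some j) none / ℓ with hSd
  set L' : Matrix ι ι ℝ := Matrix.of fun i j => L (some i) (some j) with hL'
  set lam : ι → ℝ := fun i => L (some i) none with hlam
  set γ : ℝ := b - ((Fintype.card (Option ι) : ℝ) + 1) / 2 with hγ
  have hγ' : γ = b - n / 2 - 1 := by
    rw [hγ, Fintype.card_option]
    push_cast
    ring
  -- the inner integral over `y`
  have hy : ∀ (x : Sym2 ι → ℝ) (v : ι → ℝ), x ∈ cone ι →
      ∫⁻ y : ℝ, (cone (Option ι)).indicator (fun z => ENNReal.ofReal ((symm z).det ^ γ *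
        Real.exp (-(L * symm z).trace))) (border x v y) =
      ENNReal.ofReal ((symm x).det ^ γ * Real.exp (-(L' * symm x).trace) *
        (ℓ ^ (-(b - n / 2)) * Real.Gamma (b - n / 2))) *
        ENNReal.ofReal (Real.exp (-(v ⬝ᵥ (ℓ • (symm x)⁻¹) *ᵥ v) - 2 * (lam ⬝ᵥ v))) := by
    intro x v hx
    set q : ℝ := v ⬝ᵥ (symm x)⁻¹ *ᵥ v with hq
    have hdx : 0 < (symm x).det := Matrix.PosDef.det_pos hx
    have e1 : ∀ y : ℝ, (cone (Option ι)).indicator (fun z => ENNReal.ofReal ((symm z).det ^ γ *
        Real.exp (-(L * symm z).trace))) (border x v y) =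
        (Set.Ioi (0 : ℝ)).indicator (fun s => ENNReal.ofReal
          ((symm x).det ^ γ * Real.exp (-(L' * symm x).trace - 2 * (lam ⬝ᵥ v) - ℓ * q)) *
          ENNReal.ofReal (s ^ (b - n / 2 - 1) * Real.exp (-(ℓ * s)))) (y - q) := by
      intro y
      by_cases hy : q < y
      · have hmem : border x v y ∈ cone (Option ι) := (border_posDef x v y).2 ⟨hx, hy⟩
        have hmem2 : y - q ∈ Set.Ioi (0 : ℝ) := sub_pos.2 hy
        rw [Set.indicator_of_mem hmem, Set.indicator_of_mem hmem2,
          ← ENNReal.ofReal_mul (by positivity)]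
        congr 1
        have ht : (L * symm (border x v y)).trace = (L' * symm x).trace + 2 * (lam ⬝ᵥ v) + ℓ * y :=
          trace_border L hL.isHermitian x v y
        rw [border_det x v y hx, Real.mul_rpow hdx.le (sub_pos.2 hy).le, ht, ← hγ']
        have e2 : Real.exp (-((L' * symm x).trace + 2 * (lam ⬝ᵥ v) + ℓ * y)) =
            Real.exp (-(L' * symm x).trace - 2 * (lam ⬝ᵥ v) - ℓ * q) *
              Real.exp (-(ℓ * (y - q))) := by
          rw [← Real.exp_add]; congr 1; ring
        rw [e2]; ring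
      · have hmem : border x v y ∉ cone (Option ι) := fun h => hy ((border_posDef x v y).1 h).2
        have hmem2 : y - q ∉ Set.Ioi (0 : ℝ) := fun h => hy (sub_pos.1 h)
        rw [Set.indicator_of_notMem hmem, Set.indicator_of_notMem hmem2]
    simp_rw [e1]
    rw [lintegral_sub_right_eq_self (fun s => (Set.Ioi (0 : ℝ)).indicator (fun s => ENNReal.ofReal
          ((symm x).det ^ γ * Real.exp (-(L' * symm x).trace - 2 * (lam ⬝ᵥ v) - ℓ * q)) *
          ENNReal.ofReal (s ^ (b - n / 2 - 1) * Real.exp (-(ℓ * s)))) s) q,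
      lintegral_indicator measurableSet_Ioi, lintegral_const_mul _ (by fun_prop),
      gamma_int ha hl0, ← ENNReal.ofReal_mul (by positivity), ← ENNReal.ofReal_mul (by
        have := Real.Gamma_pos_of_pos ha
        positivity)]
    congr 1
    have e3 : v ⬝ᵥ (ℓ • (symm x)⁻¹) *ᵥ v = ℓ * q := by
      rw [Matrix.smul_mulVec, dotProduct_smul, smul_eq_mul]
    rw [e3]
    have e4 : Real.exp (-(L' * symm x).trace - 2 * (lam ⬝ᵥ v) - ℓ * q) =
        Real.exp (-(L' * symm x).trace) * Real.exp (-(ℓ * q) - 2 * (lam ⬝ᵥ v)) := by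
      rw [← Real.exp_add]; congr 1; ring
    rw [e4]; ring
  -- the integral over `v`
  have hv : ∀ x : Sym2 ι → ℝ, x ∈ cone ι →
      ∫⁻ v : ι → ℝ, ∫⁻ y : ℝ, (cone (Option ι)).indicator (fun z => ENNReal.ofReal
        ((symm z).det ^ γ * Real.exp (-(L * symm z).trace))) (border x v y) =
      ENNReal.ofReal (Real.Gamma (b - n / 2) * Real.pi ^ (n / 2) * ℓ ^ (-b)) *
        ENNReal.ofReal ((symm x).det ^ (b - (n + 1) / 2) * Real.exp (-(S * symm x).trace)) := by
    intro x hx
    have hdx : 0 < (symm x).det := Matrix.PosDef.det_pos hx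
    have hAp : (ℓ • (symm x)⁻¹).PosDef := (Matrix.PosDef.inv hx).smul hl0
    simp_rw [hy x _ hx]
    rw [lintegral_const_mul' _ _ ENNReal.ofReal_ne_top, gauss_quad _ hAp lam,
      ← ENNReal.ofReal_mul (by
        have := Real.Gamma_pos_of_pos ha
        positivity), ← ENNReal.ofReal_mul (by
        have := Real.Gamma_pos_of_pos ha
        positivity)]
    congr 1
    have hunit : IsUnit (symm x).det := hdx.ne'.isUnit
    have e1 : (ℓ • (symm x)⁻¹)⁻¹ = ℓ⁻¹ • symm x := by
      apply Matrix.inv_eq_right_inv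
      rw [Matrix.smul_mul, Matrix.mul_smul, smul_smul, mul_inv_cancel₀ hl0.ne', one_smul,
        Matrix.nonsing_inv_mul _ hunit]
    have e2 : (ℓ • (symm x)⁻¹).det = ℓ ^ (Fintype.card ι) * ((symm x).det)⁻¹ := by
      rw [Matrix.det_smul, Matrix.det_nonsing_inv, Ring.inverse_eq_inv']
    have e3 : (ℓ ^ (Fintype.card ι) * ((symm x).det)⁻¹) ^ (-(1 / 2) : ℝ) =
        ℓ ^ (-(n / 2)) * (symm x).det ^ (1 / 2 : ℝ) := by
      rw [Real.mul_rpow (by positivity) (by positivity), ← Real.rpow_natCast, ← Real.rpow_mul hl0.le,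
        Real.inv_rpow hdx.le, ← Real.rpow_neg hdx.le, ← hn]
      congr 2
      · ring
      · ring
    have e4 : lam ⬝ᵥ (ℓ⁻¹ • symm x) *ᵥ lam = (lam ⬝ᵥ (symm x) *ᵥ lam) / ℓ := by
      rw [Matrix.smul_mulVec, dotProduct_smul, smul_eq_mul]
      ring
    have hts : (S * symm x).trace = (L' * symm x).trace - (lam ⬝ᵥ (symm x) *ᵥ lam) / ℓ :=
      trace_schur L' lam ℓ x
    rw [e1, e2, e3, e4, hts]
    have e5 : (symm x).det ^ (b - (n + 1) / 2) = (symm x).det ^ γ * (symm x).det ^ (1 / 2 : ℝ) := by
      rw [← Real.rpow_add hdx, hγ']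
      congr 1
      ring
    have e6 : ℓ ^ (-b) = ℓ ^ (-(b - n / 2)) * ℓ ^ (-(n / 2)) := by
      rw [← Real.rpow_add hl0]
      congr 1
      ring
    have e7 : Real.exp (-((L' * symm x).trace - (lam ⬝ᵥ (symm x) *ᵥ lam) / ℓ)) =
        Real.exp (-(L' * symm x).trace) * Real.exp ((lam ⬝ᵥ (symm x) *ᵥ lam) / ℓ) := by
      rw [← Real.exp_add]; congr 1; ring
    rw [e5, e6, e7]
    ring
  -- assembly
  have hmeas := (measurable_dens L γ).indicator (isOpen_cone (Option ι)).measurableSet
  rw [← lintegral_indicator (isOpen_cone (Option ι)).measurableSet,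
    border_lintegral _ hmeas]
  have hx : ∀ x : Sym2 ι → ℝ, ∫⁻ v : ι → ℝ, ∫⁻ y : ℝ, (cone (Option ι)).indicator
      (fun z => ENNReal.ofReal ((symm z).det ^ γ * Real.exp (-(L * symm z).trace))) (border x v y) =
      (cone ι).indicator (fun x => ENNReal.ofReal (Real.Gamma (b - n / 2) * Real.pi ^ (n / 2) *
        ℓ ^ (-b)) * ENNReal.ofReal ((symm x).det ^ (b - (n + 1) / 2) *
          Real.exp (-(S * symm x).trace))) x := by
    intro x
    by_cases hxc : x ∈ cone ι
    · rw [Set.indicator_of_mem hxc, hv x hxc]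
    · rw [Set.indicator_of_notMem hxc]
      have : ∀ (v : ι → ℝ) (y : ℝ), (cone (Option ι)).indicator
        (fun z => ENNReal.ofReal ((symm z).det ^ γ * Real.exp (-(L * symm z).trace)))
          (border x v y) = 0 := by
        intro v y
        apply Set.indicator_of_notMem
        intro h
        exact hxc ((border_posDef x v y).1 h).1
      simp_rw [this]
      simp
  simp_rw [hx]
  rw [lintegral_indicator (isOpen_cone ι).measurableSet,
    lintegral_const_mul' _ _ ENNReal.ofReal_ne_top, h1 S hS, ← ENNReal.ofReal_mul (by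
      have := Real.Gamma_pos_of_pos ha
      positivity)]
  congr 1
  have hSd0 : 0 < S.det := hS.det_pos
  rw [hdet, Real.mul_rpow hl0.le hSd0.le]
  ring

theorem gamma_laplace {ι : Type} [Fintype ι] [DecidableEq ι] (β : ℝ)
    (hβ : ((Fintype.card ι : ℝ) - 1) / 2 < β) :
    ∃ c : ℝ, 0 < c ∧ ∀ L : Matrix ι ι ℝ, L.PosDef →
      ∫⁻ x in cone ι, ENNReal.ofReal ((symm x).det ^ (β - ((Fintype.card ι : ℝ) + 1) / 2) *
        Real.exp (-(L * symm x).trace)) = ENNReal.ofReal (c * L.det ^ (-β)) := by
  have key : ∀ n : ℕ, GLst (Fin n) := by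
    intro n
    induction n with
    | zero => exact GL_empty
    | succ n ih => exact GL_transport (finSuccEquiv n).symm (GL_option ih)
  exact GL_transport (Fintype.equivFin ι).symm (key _) β hβ

end Pool.Agent.TH384.WP
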