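import Pool.Agent.TH384.WP.GammaLaplace
import Pool.Agent.TH511.WP.Zc
import Pool.Agent.TH985.WP.Tilt

set_option autoImplicit false

/-!
# The Wishart density and the law of `C M Mᵀ Cᵀ` have the same law (job 1253)
-/

open MeasureTheory ProbabilityTheory Matrix
open scoped ENNReal Topology

namespace Pool.Agent.TH384.WP

open Pool.Agent.TH985.WP

open Pool.Agent.TH511.WP (Zc_pos)

/-! ### equality of characteristic functions from the moment generating functions near `0` -/

theorem complexMGF_eq_of_lintegral {Ω Ω' : Type*} [MeasurableSpace Ω] [MeasurableSpace Ω']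
    {μ : Measure Ω} {μ' : Measure Ω'} {X : Ω → ℝ} {Y : Ω' → ℝ} (hX : Measurable X)
    (hY : Measurable Y) {δ : ℝ} (hδ : 0 < δ)
    (h : ∀ t : ℝ, |t| < δ → ∫⁻ ω, ENNReal.ofReal (Real.exp (t * X ω)) ∂μ =
      ∫⁻ ω, ENNReal.ofReal (Real.exp (t * Y ω)) ∂μ')
    (hfin : ∀ t : ℝ, |t| < δ → ∫⁻ ω, ENNReal.ofReal (Real.exp (t * X ω)) ∂μ ≠ ∞) :
    complexMGF X μ Complex.I = complexMGF Y μ' Complex.I := by
  have hfin' : ∀ t : ℝ, |t| < δ → ∫⁻ ω, ENNReal.ofReal (Real.exp (t * Y ω)) ∂μ' ≠ ∞ :=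
    fun t ht => by rw [← h t ht]; exact hfin t ht
  have hintX : ∀ t : ℝ, |t| < δ → Integrable (fun ω => Real.exp (t * X ω)) μ := by
    intro t ht
    refine ⟨by fun_prop, ?_⟩
    rw [hasFiniteIntegral_iff_ofReal (Filter.Eventually.of_forall fun _ => (Real.exp_pos _).le)]
    exact lt_top_iff_ne_top.2 (hfin t ht)
  have hintY : ∀ t : ℝ, |t| < δ → Integrable (fun ω => Real.exp (t * Y ω)) μ' := by
    intro t ht
    refine ⟨by fun_prop, ?_⟩
    rw [hasFiniteIntegral_iff_ofReal (Filter.Eventually.of_forall fun _ => (Real.exp_pos _).le)]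
    exact lt_top_iff_ne_top.2 (hfin' t ht)
  have hmgf : ∀ t : ℝ, |t| < δ → mgf X μ t = mgf Y μ' t := by
    intro t ht
    unfold mgf
    rw [integral_eq_lintegral_of_nonneg_ae (Filter.Eventually.of_forall fun _ =>
        (Real.exp_pos _).le) (by fun_prop),
      integral_eq_lintegral_of_nonneg_ae (Filter.Eventually.of_forall fun _ =>
        (Real.exp_pos _).le) (by fun_prop), h t ht]
  have hsubX : Set.Ioo (-δ) δ ⊆ interior (integrableExpSet X μ) := by
    apply interior_maximal _ isOpen_Ioo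
    intro t ht
    exact hintX t (abs_lt.2 ht)
  have hsubY : Set.Ioo (-δ) δ ⊆ interior (integrableExpSet Y μ') := by
    apply interior_maximal _ isOpen_Ioo
    intro t ht
    exact hintY t (abs_lt.2 ht)
  have hX' : AnalyticOnNhd ℂ (complexMGF X μ) {z | z.re ∈ Set.Ioo (-δ) δ} :=
    analyticOnNhd_complexMGF.mono fun z hz => hsubX hz
  have hY' : AnalyticOnNhd ℂ (complexMGF Y μ') {z | z.re ∈ Set.Ioo (-δ) δ} :=
    analyticOnNhd_complexMGF.mono fun z hz => hsubY hz
  have hpre : IsPreconnected {z : ℂ | z.re ∈ Set.Ioo (-δ) δ} :=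
    ((convex_Ioo (-δ) δ).linear_preimage Complex.reLm).isPreconnected
  have h0 : (0 : ℂ) ∈ {z : ℂ | z.re ∈ Set.Ioo (-δ) δ} := by
    show (0 : ℂ).re ∈ Set.Ioo (-δ) δ
    simp [hδ]
  have hfreq : ∃ᶠ z : ℂ in 𝓝[≠] ((0 : ℝ) : ℂ), complexMGF X μ z = complexMGF Y μ' z := by
    have h_real : ∃ᶠ (x : ℝ) in 𝓝[≠] (0 : ℝ), complexMGF X μ x = complexMGF Y μ' x := by
      apply Filter.Eventually.frequently
      have : ∀ᶠ x : ℝ in 𝓝 (0 : ℝ), |x| < δ := by
        have := Metric.ball_mem_nhds (0 : ℝ) hδ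
        filter_upwards [this] with x hx
        simpa using hx
      filter_upwards [this.filter_mono nhdsWithin_le_nhds] with x hx
      rw [complexMGF_ofReal, complexMGF_ofReal, hmgf x hx]
    rw [Filter.frequently_iff_seq_forall] at h_real ⊢
    obtain ⟨xs, hx_tendsto, hx_eq⟩ := h_real
    refine ⟨fun n ↦ xs n, ?_, fun n ↦ ?_⟩
    · rw [tendsto_nhdsWithin_iff] at hx_tendsto ⊢
      constructor
      · rw [Filter.tendsto_ofReal_iff]
        exact hx_tendsto.1
      · simpa using hx_tendsto.2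
    · simp [hx_eq]
  have hEq := AnalyticOnNhd.eqOn_of_preconnected_of_frequently_eq hX' hY' hpre
    (z₀ := ((0 : ℝ) : ℂ)) (by simpa using h0) hfreq
  apply hEq
  show Complex.I.re ∈ Set.Ioo (-δ) δ
  simp [hδ]

/-! ### linear functionals -/

section functionals

variable {ι : Type} [Fintype ι] [DecidableEq ι]

/-- the symmetric matrix of a linear functional -/
noncomputable def Tm (L : (Sym2 ι → ℝ) →ₗ[ℝ] ℝ) : Matrix ι ι ℝ := Matrix.of fun i j =>
  L (Pi.single s(i, j) 1) * (if i = j then 1 else 1 / 2)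

theorem Tm_symm (L : (Sym2 ι → ℝ) →ₗ[ℝ] ℝ) : (Tm L)ᵀ = Tm L := by
  ext i j
  simp only [Tm, Matrix.transpose_apply, Matrix.of_apply]
  rw [Sym2.eq_swap]
  by_cases h : i = j
  · rw [if_pos h, if_pos h.symm]
  · rw [if_neg h, if_neg (fun h' => h h'.symm)]

/-- the trace form as a linear map -/
noncomputable def trl (T : Matrix ι ι ℝ) : (Sym2 ι → ℝ) →ₗ[ℝ] ℝ where
  toFun x := (T * symm x).trace
  map_add' x y := by
    have : symm (x + y) = symm x + symm y := by ext i j; rfl
    rw [this, Matrix.mul_add, Matrix.trace_add]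
  map_smul' c x := by
    have : symm (c • x) = c • symm x := by ext i j; rfl
    rw [this, Matrix.mul_smul, Matrix.trace_smul, RingHom.id_apply]

theorem trl_Tm (L : (Sym2 ι → ℝ) →ₗ[ℝ] ℝ) : trl (Tm L) = L := by
  apply LinearMap.pi_ext'
  intro e
  apply LinearMap.ext_ring
  show (Tm L * symm (Pi.single e 1)).trace = L (Pi.single e 1)
  induction e with
  | _ a b =>
    have hx : ∀ i j, symm (Pi.single s(a, b) 1) i j =
        if (i = a ∧ j = b) ∨ (i = b ∧ j = a) then (1 : ℝ) else 0 := by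
      intro i j
      show (Pi.single s(a, b) (1 : ℝ) : Sym2 ι → ℝ) s(i, j) = _
      rw [Pi.single_apply]
      simp only [Sym2.eq_iff]
    simp only [Matrix.trace, Matrix.diag_apply, Matrix.mul_apply, hx]
    by_cases hab : a = b
    · subst hab
      have h1 : ∀ i j : ι, Tm L i j * (if (j = a ∧ i = a) ∨ (j = a ∧ i = a) then (1 : ℝ) else 0) =
          if j = a then (if i = a then Tm L i j else 0) else 0 := by
        intro i j
        by_cases h2 : j = a <;> by_cases h3 : i = a <;> simp [h2, h3]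
      simp only [h1, Finset.sum_ite_eq', Finset.mem_univ, if_true]
      simp [Tm]
    · have h1 : ∀ i j : ι, Tm L i j * (if (j = a ∧ i = b) ∨ (j = b ∧ i = a) then (1 : ℝ) else 0) =
          (if j = a then (if i = b then Tm L i j else 0) else 0) +
          (if j = b then (if i = a then Tm L i j else 0) else 0) := by
        intro i j
        have hba : b ≠ a := fun h => hab h.symm
        by_cases h2 : j = a
        · have h2' : ¬ j = b := fun h => hab (h2.symm.trans h)
          by_cases h3 : i = b <;> simp [h2, h3, hab]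
        · by_cases h2' : j = b
          · by_cases h3 : i = a <;> simp [h2', h3, hba]
          · simp [h2, h2']
      simp only [h1, Finset.sum_add_distrib, Finset.sum_ite_eq', Finset.mem_univ, if_true]
      simp only [Tm, Matrix.of_apply]
      rw [if_neg hab, if_neg (fun h => hab h.symm), Sym2.eq_swap]
      ring

end functionals

/-! ### the two transforms -/

section transforms

variable {ι : Type} [Fintype ι] [DecidableEq ι]

theorem PosDef_of_CC {C : Matrix ι ι ℝ} (hC : IsUnit C.det) : (C * Cᵀ).PosDef := by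
  have h1 : (1 : Matrix ι ι ℝ).PosDef := Matrix.PosDef.one
  have hinj : Function.Injective (fun v : ι → ℝ => v ᵥ* C) :=
    Matrix.vecMul_injective_of_isUnit ((Matrix.isUnit_iff_isUnit_det C).2 hC)
  have := h1.mul_mul_conjTranspose_same (B := C) hinj
  simpa using this

theorem mgamma_eq {b c : ℝ} (hc0 : 0 < c)
    (hc : ∀ L : Matrix ι ι ℝ, L.PosDef →
      ∫⁻ x in cone ι, ENNReal.ofReal ((symm x).det ^ (b - ((Fintype.card ι : ℝ) + 1) / 2) *
        Real.exp (-(L * symm x).trace)) = ENNReal.ofReal (c * L.det ^ (-b))) :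
    mgamma ι b = c := by
  have h1 := hc 1 Matrix.PosDef.one
  rw [Matrix.det_one, Real.one_rpow, mul_one] at h1
  unfold mgamma
  have hnn : 0 ≤ᵐ[volume.restrict (cone ι)] fun x : Sym2 ι → ℝ =>
      (symm x).det ^ (b - ((Fintype.card ι : ℝ) + 1) / 2) * Real.exp (-(symm x).trace) := by
    filter_upwards [ae_restrict_mem (isOpen_cone ι).measurableSet] with x hx
    have : 0 < (symm x).det := Matrix.PosDef.det_pos hx
    positivity
  have hm : AEStronglyMeasurable (fun x : Sym2 ι → ℝ =>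
      (symm x).det ^ (b - ((Fintype.card ι : ℝ) + 1) / 2) * Real.exp (-(symm x).trace))
      (volume.restrict (cone ι)) := by
    apply Measurable.aestronglyMeasurable
    have h2 := measurable_tr (1 : Matrix ι ι ℝ)
    simp only [Matrix.one_mul] at h2
    exact (measurable_det.pow_const _).mul (Real.measurable_exp.comp h2.neg)
  rw [integral_eq_lintegral_of_nonneg_ae hnn hm]
  simp only [Matrix.one_mul] at h1
  rw [h1, ENNReal.toReal_ofReal hc0.le]

theorem wish_exp (α : ℝ) (hα : (Fintype.card ι : ℝ) - 1 < α) (C : Matrix ι ι ℝ)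
    (hC : IsUnit C.det) (T : Matrix ι ι ℝ) (hT : Tᵀ = T) (t : ℝ)
    (ht : (1 + (-(2 * t)) • (Cᵀ * T * C)).PosDef) :
    ∫⁻ x, ENNReal.ofReal (Real.exp (t * (T * symm x).trace)) ∂(wishart α (C * Cᵀ)) =
      ENNReal.ofReal ((1 + (-(2 * t)) • (Cᵀ * T * C)).det ^ (-(α / 2))) := by
  obtain ⟨c, hc0, hc⟩ := gamma_laplace (ι := ι) (α / 2) (by linarith)
  have hmg := mgamma_eq hc0 hc
  have hS : (C * Cᵀ).PosDef := PosDef_of_CC hC
  have hdS : 0 < (C * Cᵀ).det := hS.det_pos
  have hd2S : 0 < ((2 : ℝ) • (C * Cᵀ)).det := by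
    rw [Matrix.det_smul]; positivity
  have hCi : IsUnit (C⁻¹).det := Matrix.isUnit_nonsing_inv_det C hC
  -- the matrix
  set L : Matrix ι ι ℝ := (1 / 2 : ℝ) • (C * Cᵀ)⁻¹ - t • T with hL
  have hLe : L = (1 / 2 : ℝ) • ((C⁻¹)ᵀ * (1 + (-(2 * t)) • (Cᵀ * T * C)) * C⁻¹) := by
    have e1 : (C * Cᵀ)⁻¹ = (C⁻¹)ᵀ * C⁻¹ := by
      rw [Matrix.mul_inv_rev, Matrix.transpose_nonsing_inv]
    have e2 : C * C⁻¹ = 1 := Matrix.mul_nonsing_inv C hC
    have e3 : (C⁻¹)ᵀ * Cᵀ = 1 := by
      rw [← Matrix.transpose_mul, e2, Matrix.transpose_one]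
    have e4 : (C⁻¹)ᵀ * (Cᵀ * T * C) * C⁻¹ = T := by
      calc (C⁻¹)ᵀ * (Cᵀ * T * C) * C⁻¹ = ((C⁻¹)ᵀ * Cᵀ) * T * (C * C⁻¹) := by
            simp only [Matrix.mul_assoc]
        _ = T := by rw [e2, e3, Matrix.one_mul, Matrix.mul_one]
    rw [Matrix.mul_add, Matrix.add_mul, Matrix.mul_one, Matrix.mul_smul, Matrix.smul_mul, e4,
      ← e1, smul_add, smul_smul, hL, sub_eq_add_neg]
    congr 1
    rw [← neg_smul]
    congr 1
    ring
  have hLpos : L.PosDef := by
    rw [hLe]
    have hinj : Function.Injective (fun v : ι → ℝ => C⁻¹ *ᵥ v) :=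
      Matrix.mulVec_injective_of_isUnit ((Matrix.isUnit_iff_isUnit_det _).2 hCi)
    have := ht.conjTranspose_mul_mul_same (B := C⁻¹) hinj
    rw [Matrix.conjTranspose_eq_transpose_of_trivial] at this
    exact this.smul (by norm_num)
  have hLdet : ((2 : ℝ) • (C * Cᵀ)).det * L.det = (1 + (-(2 * t)) • (Cᵀ * T * C)).det := by
    rw [hLe, Matrix.det_smul, Matrix.det_smul, Matrix.det_mul, Matrix.det_mul, Matrix.det_mul,
      Matrix.det_transpose, Matrix.det_transpose, Matrix.det_nonsing_inv, Ring.inverse_eq_inv']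
    have hCd : C.det ≠ 0 := hC.ne_zero
    have e5 : (2 : ℝ) ^ Fintype.card ι * (1 / 2) ^ Fintype.card ι = 1 := by
      rw [← mul_pow]; norm_num
    calc _ = ((2 : ℝ) ^ Fintype.card ι * (1 / 2) ^ Fintype.card ι) *
        (1 + (-(2 * t)) • (Cᵀ * T * C)).det * ((C.det * (C.det)⁻¹) * (C.det * (C.det)⁻¹)) := by
          ring
      _ = _ := by rw [e5, mul_inv_cancel₀ hCd]; ring
  have hmd : Measurable (fun x : Sym2 ι → ℝ => ENNReal.ofReal (wishartDensity α (C * Cᵀ)
      (symm x))) := by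
    unfold wishartDensity
    apply ENNReal.measurable_ofReal.comp
    exact ((measurable_det.pow_const _).mul
      (Real.measurable_exp.comp (measurable_tr _).neg)).div_const _
  have hme : Measurable (fun x : Sym2 ι → ℝ => ENNReal.ofReal (Real.exp
      (t * (T * symm x).trace))) := by
    apply ENNReal.measurable_ofReal.comp
    exact Real.measurable_exp.comp ((measurable_tr T).const_mul t)
  unfold wishart
  rw [lintegral_withDensity_eq_lintegral_mul _ hmd hme]
  have hcon : 0 < ((2 : ℝ) • (C * Cᵀ)).det ^ (α / 2) * mgamma ι (α / 2) := by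
    rw [hmg]; positivity
  have e6 : ∫⁻ x in cone ι, ((fun x => ENNReal.ofReal (wishartDensity α (C * Cᵀ) (symm x))) *
      fun x => ENNReal.ofReal (Real.exp (t * (T * symm x).trace))) x =
      ∫⁻ x in cone ι, ENNReal.ofReal ((((2 : ℝ) • (C * Cᵀ)).det ^ (α / 2) *
        mgamma ι (α / 2))⁻¹) * ENNReal.ofReal ((symm x).det ^
        (α / 2 - ((Fintype.card ι : ℝ) + 1) / 2) * Real.exp (-(L * symm x).trace)) := by
    apply setLIntegral_congr_fun (isOpen_cone ι).measurableSet
    intro x hx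
    have hdx : 0 < (symm x).det := Matrix.PosDef.det_pos hx
    simp only [Pi.mul_apply]
    rw [← ENNReal.ofReal_mul (by unfold wishartDensity; positivity),
      ← ENNReal.ofReal_mul (by positivity)]
    congr 1
    unfold wishartDensity
    have e7 : Real.exp (-(L * symm x).trace) =
        Real.exp (-(((1 / 2 : ℝ) • (C * Cᵀ)⁻¹) * symm x).trace) *
          Real.exp (t * (T * symm x).trace) := by
      rw [← Real.exp_add]
      congr 1
      rw [hL, Matrix.sub_mul, Matrix.trace_sub, Matrix.smul_mul t T, Matrix.trace_smul,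
        smul_eq_mul]
      ring
    rw [e7]
    field_simp
  rw [e6, lintegral_const_mul' _ _ ENNReal.ofReal_ne_top, hc L hLpos,
    ← ENNReal.ofReal_mul (by positivity)]
  congr 1
  rw [hmg, ← hLdet, Real.mul_rpow hd2S.le hLpos.det_pos.le, Real.rpow_neg hd2S.le]
  field_simp

theorem trace_gramc (C : Matrix ι ι ℝ) (T : Matrix ι ι ℝ) (M : ι → ι → ℝ) :
    (T * symm (gramc C M)).trace = ∑ k, M k ⬝ᵥ (Cᵀ * T * C) *ᵥ M k := by
  have e1 : ∀ i j, symm (gramc C M) i j = ∑ k, (C *ᵥ M k) i * (C *ᵥ M k) j := fun i j => rfl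
  have e2 : ∀ k, M k ⬝ᵥ (Cᵀ * T * C) *ᵥ M k = ∑ i, ∑ j, T i j * ((C *ᵥ M k) j * (C *ᵥ M k) i) := by
    intro k
    rw [← Matrix.mulVec_mulVec, ← Matrix.mulVec_mulVec, Matrix.dotProduct_mulVec,
      Matrix.vecMul_transpose]
    generalize C *ᵥ M k = w
    simp only [dotProduct, Matrix.mulVec, Finset.mul_sum]
    apply Finset.sum_congr rfl
    intro i _
    apply Finset.sum_congr rfl
    intro j _
    ring
  simp only [e2, Matrix.trace, Matrix.diag_apply, Matrix.mul_apply, e1, Finset.mul_sum]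
  rw [Finset.sum_comm]
  calc ∑ y, ∑ x, ∑ i, T x y * ((C *ᵥ M i) y * (C *ᵥ M i) x)
      = ∑ y, ∑ i, ∑ x, T x y * ((C *ᵥ M i) y * (C *ᵥ M i) x) := by
        apply Finset.sum_congr rfl
        intro y _
        exact Finset.sum_comm
    _ = ∑ i, ∑ y, ∑ x, T x y * ((C *ᵥ M i) y * (C *ᵥ M i) x) := Finset.sum_comm
    _ = _ := by
        apply Finset.sum_congr rfl
        intro i _
        exact Finset.sum_comm

theorem measurable_gramc (C : Matrix ι ι ℝ) : Measurable (gramc (K := ι) C) := by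
  rw [measurable_pi_iff]
  intro e
  induction e with
  | _ i j =>
    show Measurable (fun M : ι → ι → ℝ => ∑ k, (C *ᵥ M k) i * (C *ᵥ M k) j)
    have : ∀ k i, Measurable (fun M : ι → ι → ℝ => (C *ᵥ M k) i) := by
      intro k i
      show Measurable (fun M : ι → ι → ℝ => ∑ l, C i l * M k l)
      fun_prop
    exact Finset.measurable_fun_sum _ fun k _ => (this k i).mul (this k j)

theorem measurable_detw (κ : ℝ) : Measurable (detw (ι := ι) κ) := by
  unfold detw
  apply ENNReal.measurable_ofReal.comp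
  have : Continuous (fun M : ι → ι → ℝ => (Matrix.of M).det) := by
    apply Continuous.matrix_det
    exact continuous_matrix fun i j => by
      show Continuous (fun M : ι → ι → ℝ => M i j)
      fun_prop
  exact (this.measurable.norm).pow_const κ

theorem muk_exp (α : ℝ) (hα : (Fintype.card ι : ℝ) - 1 < α) (C : Matrix ι ι ℝ)
    (T : Matrix ι ι ℝ) (t : ℝ) (ht : (1 + (-(2 * t)) • (Cᵀ * T * C)).PosDef) :
    ∫⁻ M, ENNReal.ofReal (Real.exp (t * (T * symm (gramc C M)).trace))
      ∂(muk ι (α - Fintype.card ι)) =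
      ENNReal.ofReal ((1 + (-(2 * t)) • (Cᵀ * T * C)).det ^ (-(α / 2))) := by
  obtain ⟨hz1, hz2⟩ := Zc_pos (ι := ι) (α - Fintype.card ι) (by linarith)
  have hme : Measurable (fun M : ι → ι → ℝ => ENNReal.ofReal (Real.exp
      (t * (T * symm (gramc C M)).trace))) := by
    apply ENNReal.measurable_ofReal.comp
    exact Real.measurable_exp.comp
      (((measurable_tr T).comp (measurable_gramc C)).const_mul t)
  unfold muk
  rw [lintegral_smul_measure, lintegral_withDensity_eq_lintegral_mul _ (measurable_detw _) hme]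
  have h1 := lap (α - Fintype.card ι) ((-(2 * t)) • (Cᵀ * T * C)) ht
  have e1 : ∀ M : ι → ι → ℝ, detw (α - Fintype.card ι) M * ENNReal.ofReal (Real.exp
      (t * (T * symm (gramc C M)).trace)) = detw (α - Fintype.card ι) M *
      ENNReal.ofReal (Real.exp (-(1 / 2) * ∑ k, M k ⬝ᵥ ((-(2 * t)) • (Cᵀ * T * C)) *ᵥ M k)) := by
    intro M
    congr 3
    rw [trace_gramc]
    simp only [Matrix.smul_mulVec, dotProduct_smul, smul_eq_mul]
    rw [← Finset.mul_sum]
    ring
  simp only [Pi.mul_apply]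
  simp_rw [e1]
  rw [h1, smul_eq_mul, mul_comm (ENNReal.ofReal _), ← mul_assoc,
    ENNReal.inv_mul_cancel hz1.ne' hz2.ne, one_mul]
  congr 3
  ring

theorem exists_delta (B : Matrix ι ι ℝ) (hB : Bᵀ = B) : ∃ δ : ℝ, 0 < δ ∧ ∀ t : ℝ, |t| < δ →
    (1 + (-(2 * t)) • B).PosDef := by
  -- coordinates of a symmetric matrix
  let co : Matrix ι ι ℝ → (Sym2 ι → ℝ) := fun A e => e.lift ⟨fun i j => A i j + A j i, fun i j =>
    add_comm _ _⟩ / 2
  have hco : ∀ A : Matrix ι ι ℝ, Aᵀ = A → symm (co A) = A := by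
    intro A hA
    ext i j
    show (A i j + A j i) / 2 = A i j
    have : A j i = A i j := by
      have := congrFun (congrFun hA i) j
      simpa using this
    rw [this]; ring
  have hsym : ∀ t : ℝ, (1 + (-(2 * t)) • B)ᵀ = 1 + (-(2 * t)) • B := by
    intro t
    rw [Matrix.transpose_add, Matrix.transpose_one, Matrix.transpose_smul, hB]
  have hcont : Continuous (fun t : ℝ => co (1 + (-(2 * t)) • B)) := by
    rw [continuous_pi_iff]
    intro e
    induction e with
    | _ i j =>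
      show Continuous (fun t : ℝ => ((1 + (-(2 * t)) • B) i j + (1 + (-(2 * t)) • B) j i) / 2)
      simp only [Matrix.add_apply, Matrix.smul_apply, smul_eq_mul]
      fun_prop
  have hopen : IsOpen ((fun t : ℝ => co (1 + (-(2 * t)) • B)) ⁻¹' cone ι) :=
    (isOpen_cone ι).preimage hcont
  have h0 : (0 : ℝ) ∈ (fun t : ℝ => co (1 + (-(2 * t)) • B)) ⁻¹' cone ι := by
    show (symm (co (1 + (-(2 * 0)) • B))).PosDef
    rw [hco _ (hsym 0)]
    simp only [mul_zero, neg_zero, zero_smul, add_zero]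
    exact Matrix.PosDef.one
  obtain ⟨δ, hδ, hball⟩ := Metric.isOpen_iff.1 hopen 0 h0
  refine ⟨δ, hδ, fun t ht => ?_⟩
  have : t ∈ Metric.ball (0 : ℝ) δ := by
    rw [Metric.mem_ball, Real.dist_eq, sub_zero]; exact ht
  have h2 := hball this
  have h3 : (symm (co (1 + (-(2 * t)) • B))).PosDef := h2
  rwa [hco _ (hsym t)] at h3

end transforms

theorem wishart_eq {ι : Type} [Fintype ι] [DecidableEq ι] (α : ℝ)
    (hα : (Fintype.card ι : ℝ) - 1 < α) (C : Matrix ι ι ℝ) (hC : IsUnit C.det) :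
    wishart α (C * Cᵀ) = (muk ι (α - Fintype.card ι)).map (gramc C) := by
  -- finiteness
  have hfin1 : wishart α (C * Cᵀ) Set.univ ≠ ∞ := by
    have h := wish_exp α hα C hC 0 Matrix.transpose_zero 0 (by simpa using Matrix.PosDef.one)
    simp only [zero_mul, Real.exp_zero, ENNReal.ofReal_one, lintegral_one] at h
    rw [h]; exact ENNReal.ofReal_ne_top
  have hfin2 : muk ι (α - Fintype.card ι) Set.univ ≠ ∞ := by
    have h := muk_exp α hα C 0 0 (by simpa using Matrix.PosDef.one)
    simp only [zero_mul, Real.exp_zero, ENNReal.ofReal_one, lintegral_one] at h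
    rw [h]; exact ENNReal.ofReal_ne_top
  have : IsFiniteMeasure (wishart α (C * Cᵀ)) := ⟨lt_top_iff_ne_top.2 hfin1⟩
  have : IsFiniteMeasure (muk ι (α - Fintype.card ι)) := ⟨lt_top_iff_ne_top.2 hfin2⟩
  have : IsFiniteMeasure ((muk ι (α - Fintype.card ι)).map (gramc C)) :=
    Measure.isFiniteMeasure_map _ _
  apply Measure.ext_of_charFunDual
  funext L
  set T := Tm (L : (Sym2 ι → ℝ) →ₗ[ℝ] ℝ) with hT
  have hLT : ∀ x, L x = (T * symm x).trace := by
    intro x
    have := congrArg (fun f => f x) (trl_Tm (L : (Sym2 ι → ℝ) →ₗ[ℝ] ℝ))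
    exact this.symm
  have hTs : Tᵀ = T := Tm_symm _
  have hBs : (Cᵀ * T * C)ᵀ = Cᵀ * T * C := by
    rw [Matrix.transpose_mul, Matrix.transpose_mul, Matrix.transpose_transpose, hTs,
      Matrix.mul_assoc]
  obtain ⟨δ, hδ, hpd⟩ := exists_delta (Cᵀ * T * C) hBs
  have hLm : Measurable (fun x : Sym2 ι → ℝ => L x) := L.continuous.measurable
  have key := complexMGF_eq_of_lintegral (μ := wishart α (C * Cᵀ))
    (μ' := muk ι (α - Fintype.card ι)) (X := fun x => L x) (Y := fun M => L (gramc C M))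
    hLm (hLm.comp (measurable_gramc C)) hδ (fun t ht => by
      simp only [hLT]
      rw [wish_exp α hα C hC T hTs t (hpd t ht), muk_exp α hα C T t (hpd t ht)])
    (fun t ht => by
      simp only [hLT]
      rw [wish_exp α hα C hC T hTs t (hpd t ht)]
      exact ENNReal.ofReal_ne_top)
  rw [charFunDual_apply, charFunDual_apply, integral_map (measurable_gramc C).aemeasurable
    (by fun_prop)]
  unfold complexMGF at key
  simp only [mul_comm Complex.I] at key
  exact key

end Pool.Agent.TH384.WP
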